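import Pool.Agent.L7h32.PI.Stm

set_option autoImplicit false
set_option linter.unusedSectionVars false

/-! Project PI: the dimension of the tangent spaces is constant (`S_RK`). -/

open Set Filter Topology Metric
open scoped ContDiff

noncomputable section

namespace Pool.Agent.L7h50.PI

open Pool.Agent.L7h32.AA Pool.Agent.L7h32.PI

theorem idem {E : Type} [NormedAddCommGroup E] [NormedSpace ℝ E]
    {K U : Set E} {N : E → E} (h : Ret K U N) {p : E} (hp : p ∈ K) (v : E) :
    fderiv ℝ N p (fderiv ℝ N p v) = fderiv ℝ N p v := by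
  have hU : U ∈ 𝓝 p := h.opn.mem_nhds (h.sub hp)
  have hd : HasFDerivAt N (fderiv ℝ N p) p :=
    ((h.smooth.contDiffAt hU).differentiableAt (by simp)).hasFDerivAt
  have hd' : HasFDerivAt N (fderiv ℝ N p) (N p) := by
    rw [h.fix p hp]
    exact hd
  have h1 : HasFDerivAt (N ∘ N) ((fderiv ℝ N p).comp (fderiv ℝ N p)) p := hd'.comp p hd
  have h2 : (N ∘ N) =ᶠ[𝓝 p] N := by
    filter_upwards [hU] with x hx
    exact h.fix _ (h.maps x hx)
  have h3 : HasFDerivAt N ((fderiv ℝ N p).comp (fderiv ℝ N p)) p := h1.congr_of_eventuallyEq h2.symm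
  have h4 := h3.unique hd
  exact congrArg (fun A : E →L[ℝ] E => A v) h4

theorem s_RK : S_RK := by
  intro E _ _ _ K U N h hK p hp q hq
  obtain ⟨f, hf⟩ : ∃ f : E → ℝ, ∀ x, f x = LinearMap.trace ℝ E (fderiv ℝ N x).toLinearMap :=
    ⟨_, fun _ => rfl⟩
  have hval : ∀ x ∈ K, f x = (Module.finrank ℝ (LinearMap.range (fderiv ℝ N x).toLinearMap) : ℝ) := by
    intro x hx
    rw [hf]
    have h1 : LinearMap.IsProj (LinearMap.range (fderiv ℝ N x).toLinearMap) (fderiv ℝ N x).toLinearMap := by
      refine ⟨fun y => LinearMap.mem_range_self _ y, ?_⟩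
      rintro _ ⟨y, rfl⟩
      exact idem h hx y
    exact h1.trace
  have hcont : ContinuousOn f K := by
    have h1 : ContinuousOn (fderiv ℝ N) U := h.smooth.continuousOn_fderiv_of_isOpen h.opn (by simp)
    have h2 : Continuous fun A : E →L[ℝ] E => LinearMap.trace ℝ E A.toLinearMap :=
      LinearMap.continuous_of_finiteDimensional
        ((LinearMap.trace ℝ E).comp (ContinuousLinearMap.coeLM ℝ : (E →L[ℝ] E) →ₗ[ℝ] (E →ₗ[ℝ] E)))
    have h3 : f = (fun A : E →L[ℝ] E => LinearMap.trace ℝ E A.toLinearMap) ∘ fderiv ℝ N := by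
      funext x
      exact hf x
    rw [h3]
    exact (h2.comp_continuousOn h1).mono h.sub
  have key : ∀ p ∈ K, ∀ q ∈ K, ¬ f p < f q := by
    intro p hp q hq hlt
    rw [hval p hp, hval q hq] at hlt
    have hlt' : (Module.finrank ℝ (LinearMap.range (fderiv ℝ N p).toLinearMap)) <
        (Module.finrank ℝ (LinearMap.range (fderiv ℝ N q).toLinearMap)) := by exact_mod_cast hlt
    have h1 := hK.intermediate_value hp hq hcont
    have h2 : (Module.finrank ℝ (LinearMap.range (fderiv ℝ N p).toLinearMap) : ℝ) + 1 / 2 ∈ Icc (f p) (f q) := by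
      rw [hval p hp, hval q hq]
      have : ((Module.finrank ℝ (LinearMap.range (fderiv ℝ N p).toLinearMap) : ℕ) : ℝ) + 1 ≤
        (Module.finrank ℝ (LinearMap.range (fderiv ℝ N q).toLinearMap) : ℕ) := by exact_mod_cast hlt'
      constructor <;> linarith
    obtain ⟨x, hx, hx2⟩ := h1 h2
    rw [hval x hx] at hx2
    have h3 : 2 * (Module.finrank ℝ (LinearMap.range (fderiv ℝ N x).toLinearMap) : ℝ) =
        2 * (Module.finrank ℝ (LinearMap.range (fderiv ℝ N p).toLinearMap) : ℝ) + 1 := by linarith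
    have h4 : 2 * (Module.finrank ℝ (LinearMap.range (fderiv ℝ N x).toLinearMap)) =
        2 * (Module.finrank ℝ (LinearMap.range (fderiv ℝ N p).toLinearMap)) + 1 := by exact_mod_cast h3
    omega
  have h5 : f p = f q := le_antisymm (not_lt.1 (key q hq p hp)) (not_lt.1 (key p hp q hq))
  rw [hval p hp, hval q hq] at h5
  exact_mod_cast h5

end Pool.Agent.L7h50.PI
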