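import Pool.Agent.L7h50.PI.Cpr

set_option autoImplicit false
set_option linter.unusedSectionVars false

/-! Project PI: `CP²` is connected (`S_CPC`). -/

open Set Filter Topology Metric
open scoped ContDiff ComplexConjugate

noncomputable section

namespace Pool.Agent.L7h50.PI

open Pool.Agent.L7h32.AA Pool.Agent.L7h32.PI

/-- the projection onto a line -/
def vv (v : EuclideanSpace ℂ (Fin 3)) : M3 := fun i j => v i * conj (v j)

lemma vv_cont : Continuous vv := by
  unfold vv
  fun_prop

lemma sum_sphere {v : EuclideanSpace ℂ (Fin 3)} (hv : ‖v‖ = 1) : ∑ i, v i * conj (v i) = 1 := by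
  have h := EuclideanSpace.norm_sq_eq v
  rw [hv] at h
  have h1 : ∀ i, v i * conj (v i) = ((‖v i‖ ^ 2 : ℝ) : ℂ) := by
    intro i
    rw [Complex.mul_conj, Complex.normSq_eq_norm_sq]
  rw [Finset.sum_congr rfl fun i _ => h1 i, ← Complex.ofReal_sum, ← h]
  norm_num

lemma vv_mem {v : EuclideanSpace ℂ (Fin 3)} (hv : ‖v‖ = 1) : vv v ∈ CP2 := by
  have h1 := sum_sphere hv
  refine ⟨fun i j => ?_, fun i j => ?_, h1⟩
  · show v j * conj (v i) = conj (v i * conj (v j))
    rw [map_mul, Complex.conj_conj, mul_comm]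
  · show ∑ k, (v i * conj (v k)) * (v k * conj (v j)) = v i * conj (v j)
    have h2 : ∀ k, (v i * conj (v k)) * (v k * conj (v j)) = (v i * conj (v j)) * (v k * conj (v k)) :=
      fun k => by ring
    rw [Finset.sum_congr rfl fun k _ => h2 k, ← Finset.mul_sum, h1, mul_one]

lemma vv_surj {P : M3} (hP : P ∈ CP2) : ∃ v : EuclideanSpace ℂ (Fin 3), ‖v‖ = 1 ∧ vv v = P := by
  have hd := CP2_diag hP
  obtain ⟨h1, h2, h3⟩ := hP
  have hne : ∃ j, P j j ≠ 0 := by
    by_contra h
    push Not at h
    rw [Finset.sum_eq_zero fun j _ => h j] at h3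
    exact zero_ne_one h3
  obtain ⟨j, hj⟩ := hne
  have hpos : 0 < (P j j).re := by
    have h4 : 0 ≤ (P j j).re := by
      rw [(hd j).2]
      positivity
    refine lt_of_le_of_ne h4 fun h => hj ?_
    rw [← (hd j).1, ← h]
    simp
  obtain ⟨r, hr⟩ : ∃ r : ℝ, r = √(P j j).re := ⟨_, rfl⟩
  have hr0 : 0 < r := by rw [hr]; exact Real.sqrt_pos.2 hpos
  have hrr : (r : ℂ) * r = P j j := by
    rw [← Complex.ofReal_mul, hr, Real.mul_self_sqrt hpos.le, (hd j).1]
  have hrc : (r : ℂ) ≠ 0 := by exact_mod_cast hr0.ne'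
  obtain ⟨v, hv⟩ : ∃ v : EuclideanSpace ℂ (Fin 3), ∀ i, v i = P i j / r :=
    ⟨WithLp.toLp 2 (fun i => P i j / r), fun i => rfl⟩
  have hcv : ∀ i, conj (v i) = P j i / r := by
    intro i
    rw [hv, map_div₀, Complex.conj_ofReal]
    congr 1
    exact (h1 i j).symm
  have hvv : ∑ i, v i * conj (v i) = 1 := by
    have h5 : ∀ i, v i * conj (v i) = (P j i * P i j) / (r * r) := by
      intro i
      rw [hcv, hv]
      field_simp
    rw [Finset.sum_congr rfl fun i _ => h5 i, ← Finset.sum_div, h2 j j, hrr, div_self hj]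
  have hPv : ∀ i, ∑ k, P i k * v k = v i := by
    intro i
    have h5 : ∀ k, P i k * v k = (P i k * P k j) / r := fun k => by rw [hv]; ring
    rw [Finset.sum_congr rfl fun k _ => h5 k, ← Finset.sum_div, h2 i j, hv]
  have hPv' : ∀ i, ∑ k, conj (v k) * P k i = conj (v i) := by
    intro i
    have h5 : ∀ k, conj (v k) * P k i = (P j k * P k i) / r := fun k => by rw [hcv]; ring
    rw [Finset.sum_congr rfl fun k _ => h5 k, ← Finset.sum_div, h2 j i, hcv]
  refine ⟨v, ?_, ?_⟩
  · have h := EuclideanSpace.norm_sq_eq v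
    have h5 : ∀ i, v i * conj (v i) = ((‖v i‖ ^ 2 : ℝ) : ℂ) := by
      intro i
      rw [Complex.mul_conj, Complex.normSq_eq_norm_sq]
    rw [Finset.sum_congr rfl fun i _ => h5 i, ← Complex.ofReal_sum] at hvv
    have h6 : ∑ i, ‖v i‖ ^ 2 = 1 := by exact_mod_cast hvv
    rw [h6] at h
    have h7 := norm_nonneg v
    nlinarith
  · -- the difference is zero
    have hz : ∑ i, ∑ k, (P i k - v i * conj (v k)) * conj (P i k - v i * conj (v k)) = 0 := by
      have h5 : ∀ i k, (P i k - v i * conj (v k)) * conj (P i k - v i * conj (v k)) =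
          P i k * P k i - conj (v i) * (P i k * v k) - v i * (conj (v k) * P k i) +
            (v i * conj (v i)) * (v k * conj (v k)) := by
        intro i k
        have : conj (P i k) = P k i := (h1 i k).symm
        rw [map_sub, map_mul, Complex.conj_conj, this]
        ring
      have h6 : ∀ i, ∑ k, (P i k - v i * conj (v k)) * conj (P i k - v i * conj (v k)) =
          P i i - v i * conj (v i) := by
        intro i
        rw [Finset.sum_congr rfl fun k _ => h5 i k, Finset.sum_add_distrib, Finset.sum_sub_distrib,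
          Finset.sum_sub_distrib, ← Finset.mul_sum, ← Finset.mul_sum, ← Finset.mul_sum, h2 i i, hPv, hPv', hvv]
        ring
      rw [Finset.sum_congr rfl fun i _ => h6 i, Finset.sum_sub_distrib, h3, hvv, sub_self]
    have hz2 : ∑ i, ∑ k, ‖P i k - v i * conj (v k)‖ ^ 2 = 0 := by
      have h5 : ∀ i k, (P i k - v i * conj (v k)) * conj (P i k - v i * conj (v k)) =
          ((‖P i k - v i * conj (v k)‖ ^ 2 : ℝ) : ℂ) := by
        intro i k
        rw [Complex.mul_conj, Complex.normSq_eq_norm_sq]
      simp only [h5, ← Complex.ofReal_sum] at hz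
      exact_mod_cast hz
    funext i k
    have h5 := (Finset.sum_eq_zero_iff_of_nonneg (fun i _ => Finset.sum_nonneg fun k _ => by positivity)).1 hz2 i
      (Finset.mem_univ i)
    have h6 := (Finset.sum_eq_zero_iff_of_nonneg (fun k _ => by positivity)).1 h5 k (Finset.mem_univ k)
    have h7 : P i k - v i * conj (v k) = 0 := by
      rw [← norm_eq_zero]
      exact pow_eq_zero_iff (two_ne_zero) |>.1 h6
    show v i * conj (v k) = P i k
    exact (sub_eq_zero.1 h7).symm

theorem s_CPC : S_CPC := by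
  have himg : CP2 = vv '' sphere (0 : EuclideanSpace ℂ (Fin 3)) 1 := by
    ext P
    constructor
    · intro hP
      obtain ⟨v, hv, rfl⟩ := vv_surj hP
      exact ⟨v, by simpa using hv, rfl⟩
    · rintro ⟨v, hv, rfl⟩
      exact vv_mem (by simpa using hv)
  constructor
  · rw [himg]
    apply IsPreconnected.image _ _ vv_cont.continuousOn
    apply isPreconnected_sphere
    have h1 : Module.finrank ℝ (EuclideanSpace ℂ (Fin 3)) = 6 := by
      rw [← Module.finrank_mul_finrank ℝ ℂ (EuclideanSpace ℂ (Fin 3)), Complex.finrank_real_complex,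
        finrank_euclideanSpace_fin]
    have h2 : (1 : Cardinal) < ((6 : ℕ) : Cardinal) := by exact_mod_cast (by norm_num : 1 < 6)
    rw [← h1, Module.finrank_eq_rank] at h2
    exact h2
  · rw [himg]
    refine (Set.Nonempty.image vv ?_)
    exact (NormedSpace.sphere_nonempty (E := EuclideanSpace ℂ (Fin 3))).2 zero_le_one

end Pool.Agent.L7h50.PI
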