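import Pool.Agent.L7h32.PI.Stm

set_option autoImplicit false
set_option linter.unusedSectionVars false

/-! Project PI: a smooth retraction onto `CP²` (`S_CPR`). -/

open Set Filter Topology Metric
open scoped ContDiff ComplexConjugate

noncomputable section

namespace Pool.Agent.L7h50.PI

open Pool.Agent.L7h32.AA Pool.Agent.L7h32.PI

/-! ### the simple root of a cubic polynomial near one -/

def Q3 (q : ℝ × ℝ × ℝ) (x : ℝ) : ℝ := x ^ 3 - q.1 * x ^ 2 + q.2.1 * x - q.2.2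

def Bx : Set (ℝ × ℝ × ℝ) := {q | |q.1 - 1| < 1 / 100 ∧ |q.2.1| < 1 / 100 ∧ |q.2.2| < 1 / 100}

lemma Bx_open : IsOpen Bx := by
  have h1 : IsOpen {q : ℝ × ℝ × ℝ | |q.1 - 1| < 1 / 100} := isOpen_lt (by fun_prop) continuous_const
  have h2 : IsOpen {q : ℝ × ℝ × ℝ | |q.2.1| < 1 / 100} := isOpen_lt (by fun_prop) continuous_const
  have h3 : IsOpen {q : ℝ × ℝ × ℝ | |q.2.2| < 1 / 100} := isOpen_lt (by fun_prop) continuous_const
  exact h1.inter (h2.inter h3)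

lemma deriv_pos {q : ℝ × ℝ × ℝ} (hq : q ∈ Bx) {x : ℝ} (h1 : 9 / 10 ≤ x) (h2 : x ≤ 11 / 10) :
    0 < 3 * x ^ 2 - 2 * q.1 * x + q.2.1 := by
  obtain ⟨a, b, _⟩ := hq
  rw [abs_lt] at a b
  have h3 : q.1 * x ≤ 101 / 100 * x := by
    apply mul_le_mul_of_nonneg_right (by linarith) (by linarith)
  nlinarith

lemma ex_root {q : ℝ × ℝ × ℝ} (hq : q ∈ Bx) : ∃ x : ℝ, 9 / 10 < x ∧ x < 11 / 10 ∧ Q3 q x = 0 := by
  obtain ⟨a, b, c⟩ := hq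
  rw [abs_lt] at a b c
  have h1 : Q3 q (9 / 10) < 0 := by
    unfold Q3
    nlinarith
  have h2 : 0 < Q3 q (11 / 10) := by
    unfold Q3
    nlinarith
  have hc : ContinuousOn (Q3 q) (Icc (9 / 10) (11 / 10)) := by
    unfold Q3
    fun_prop
  obtain ⟨x, hx, hx0⟩ := intermediate_value_Icc (by norm_num : (9 / 10 : ℝ) ≤ 11 / 10) hc
    (show (0 : ℝ) ∈ Icc (Q3 q (9 / 10)) (Q3 q (11 / 10)) from ⟨h1.le, h2.le⟩)
  refine ⟨x, lt_of_le_of_ne hx.1 ?_, lt_of_le_of_ne hx.2 ?_, hx0⟩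
  · rintro rfl
    exact h1.ne hx0
  · rintro rfl
    exact h2.ne' hx0

lemma root_uniq {q : ℝ × ℝ × ℝ} (hq : q ∈ Bx) {x y : ℝ} (hx1 : 9 / 10 < x) (hx2 : x < 11 / 10)
    (hy1 : 9 / 10 < y) (hy2 : y < 11 / 10) (h : Q3 q x = 0) (h' : Q3 q y = 0) : x = y := by
  obtain ⟨a, b, c⟩ := hq
  rw [abs_lt] at a b c
  have h1 : (x - y) * (x ^ 2 + x * y + y ^ 2 - q.1 * (x + y) + q.2.1) = 0 := by
    unfold Q3 at h h'
    linear_combination h - h'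
  rcases mul_eq_zero.1 h1 with h2 | h2
  · linarith
  · exfalso
    have h3 : q.1 * (x + y) ≤ 101 / 100 * (x + y) := by
      apply mul_le_mul_of_nonneg_right (by linarith) (by linarith)
    nlinarith

open Classical in
/-- the root -/
def Lam (q : ℝ × ℝ × ℝ) : ℝ := if h : q ∈ Bx then (ex_root h).choose else 1

lemma Lam_spec {q : ℝ × ℝ × ℝ} (hq : q ∈ Bx) : 9 / 10 < Lam q ∧ Lam q < 11 / 10 ∧ Q3 q (Lam q) = 0 := by
  unfold Lam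
  rw [dif_pos hq]
  exact (ex_root hq).choose_spec

/-- the map whose inverse gives the root -/
def Psi (q : ℝ × ℝ × ℝ) : ℝ × ℝ × ℝ :=
  (q.1, q.2.1, q.2.2 ^ 3 - q.1 * q.2.2 ^ 2 + q.2.1 * q.2.2)

def dPsi (p : ℝ × ℝ × ℝ) : ℝ × ℝ × ℝ →L[ℝ] ℝ × ℝ × ℝ :=
  (ContinuousLinearMap.fst ℝ ℝ (ℝ × ℝ)).prod
    (((ContinuousLinearMap.fst ℝ ℝ ℝ).comp (ContinuousLinearMap.snd ℝ ℝ (ℝ × ℝ))).prod
      ((-(p.2.2 ^ 2)) • (ContinuousLinearMap.fst ℝ ℝ (ℝ × ℝ)) +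
        p.2.2 • ((ContinuousLinearMap.fst ℝ ℝ ℝ).comp (ContinuousLinearMap.snd ℝ ℝ (ℝ × ℝ))) +
        (3 * p.2.2 ^ 2 - 2 * p.1 * p.2.2 + p.2.1) •
          ((ContinuousLinearMap.snd ℝ ℝ ℝ).comp (ContinuousLinearMap.snd ℝ ℝ (ℝ × ℝ)))))

lemma dPsi_apply (p v : ℝ × ℝ × ℝ) : dPsi p v = (v.1, v.2.1, -(p.2.2 ^ 2) * v.1 + p.2.2 * v.2.1 +
    (3 * p.2.2 ^ 2 - 2 * p.1 * p.2.2 + p.2.1) * v.2.2) := rfl

def iPsi (p : ℝ × ℝ × ℝ) : ℝ × ℝ × ℝ →L[ℝ] ℝ × ℝ × ℝ :=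
  (ContinuousLinearMap.fst ℝ ℝ (ℝ × ℝ)).prod
    (((ContinuousLinearMap.fst ℝ ℝ ℝ).comp (ContinuousLinearMap.snd ℝ ℝ (ℝ × ℝ))).prod
      ((3 * p.2.2 ^ 2 - 2 * p.1 * p.2.2 + p.2.1)⁻¹ • ((p.2.2 ^ 2) • (ContinuousLinearMap.fst ℝ ℝ (ℝ × ℝ)) -
        p.2.2 • ((ContinuousLinearMap.fst ℝ ℝ ℝ).comp (ContinuousLinearMap.snd ℝ ℝ (ℝ × ℝ))) +
          ((ContinuousLinearMap.snd ℝ ℝ ℝ).comp (ContinuousLinearMap.snd ℝ ℝ (ℝ × ℝ))))))

lemma iPsi_apply (p v : ℝ × ℝ × ℝ) : iPsi p v = (v.1, v.2.1,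
    (3 * p.2.2 ^ 2 - 2 * p.1 * p.2.2 + p.2.1)⁻¹ * (p.2.2 ^ 2 * v.1 - p.2.2 * v.2.1 + v.2.2)) := rfl

def ePsi (p : ℝ × ℝ × ℝ) (hp : 3 * p.2.2 ^ 2 - 2 * p.1 * p.2.2 + p.2.1 ≠ 0) :
    (ℝ × ℝ × ℝ) ≃L[ℝ] (ℝ × ℝ × ℝ) :=
  ContinuousLinearEquiv.equivOfInverse (dPsi p) (iPsi p)
    (fun v => by
      rw [dPsi_apply, iPsi_apply]
      refine Prod.ext rfl (Prod.ext rfl ?_)
      have h : p.2.2 ^ 2 * v.1 - p.2.2 * v.2.1 + (-(p.2.2 ^ 2) * v.1 + p.2.2 * v.2.1 +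
        (3 * p.2.2 ^ 2 - 2 * p.1 * p.2.2 + p.2.1) * v.2.2) =
        (3 * p.2.2 ^ 2 - 2 * p.1 * p.2.2 + p.2.1) * v.2.2 := by ring
      show (3 * p.2.2 ^ 2 - 2 * p.1 * p.2.2 + p.2.1)⁻¹ * (p.2.2 ^ 2 * v.1 - p.2.2 * v.2.1 +
        (-(p.2.2 ^ 2) * v.1 + p.2.2 * v.2.1 + (3 * p.2.2 ^ 2 - 2 * p.1 * p.2.2 + p.2.1) * v.2.2)) = v.2.2
      rw [h, inv_mul_cancel_left₀ hp])
    (fun v => by
      rw [iPsi_apply, dPsi_apply]
      refine Prod.ext rfl (Prod.ext rfl ?_)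
      show -(p.2.2 ^ 2) * v.1 + p.2.2 * v.2.1 + (3 * p.2.2 ^ 2 - 2 * p.1 * p.2.2 + p.2.1) *
        ((3 * p.2.2 ^ 2 - 2 * p.1 * p.2.2 + p.2.1)⁻¹ * (p.2.2 ^ 2 * v.1 - p.2.2 * v.2.1 + v.2.2)) = v.2.2
      rw [mul_inv_cancel_left₀ hp]
      ring)

lemma hasFDerivAt_Psi (p : ℝ × ℝ × ℝ) : HasFDerivAt Psi (dPsi p) p := by
  have ht : HasFDerivAt (fun q : ℝ × ℝ × ℝ => q.1) (ContinuousLinearMap.fst ℝ ℝ (ℝ × ℝ)) p := hasFDerivAt_fst
  have hs : HasFDerivAt (fun q : ℝ × ℝ × ℝ => q.2.1)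
      ((ContinuousLinearMap.fst ℝ ℝ ℝ).comp (ContinuousLinearMap.snd ℝ ℝ (ℝ × ℝ))) p :=
    hasFDerivAt_fst.comp p hasFDerivAt_snd
  have hx : HasFDerivAt (fun q : ℝ × ℝ × ℝ => q.2.2)
      ((ContinuousLinearMap.snd ℝ ℝ ℝ).comp (ContinuousLinearMap.snd ℝ ℝ (ℝ × ℝ))) p :=
    hasFDerivAt_snd.comp p hasFDerivAt_snd
  have h3 := ((hx.pow 3).sub (ht.mul (hx.pow 2))).add (hs.mul hx)
  have h4 : HasFDerivAt Psi _ p := ht.prodMk (hs.prodMk h3)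
  refine h4.congr_fderiv ?_
  apply ContinuousLinearMap.ext
  intro v
  rw [dPsi_apply]
  refine Prod.ext rfl (Prod.ext rfl ?_)
  simp
  ring

lemma contDiff_Psi : ContDiff ℝ ∞ Psi := by
  unfold Psi
  fun_prop

lemma Lam_smooth {q₀ : ℝ × ℝ × ℝ} (hq : q₀ ∈ Bx) : ContDiffAt ℝ ∞ Lam q₀ := by
  obtain ⟨s1, s2, s3⟩ := Lam_spec hq
  obtain ⟨p, hp⟩ : ∃ p : ℝ × ℝ × ℝ, p = (q₀.1, q₀.2.1, Lam q₀) := ⟨_, rfl⟩
  have hne : 3 * p.2.2 ^ 2 - 2 * p.1 * p.2.2 + p.2.1 ≠ 0 := by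
    rw [hp]
    exact (deriv_pos hq s1.le s2.le).ne'
  have hΨp : Psi p = q₀ := by
    rw [hp]
    unfold Psi
    refine Prod.ext rfl (Prod.ext rfl ?_)
    unfold Q3 at s3
    simp only
    linarith
  have hf : ContDiffAt ℝ ∞ Psi p := contDiff_Psi.contDiffAt
  have hf' : HasFDerivAt Psi ((ePsi p hne : (ℝ × ℝ × ℝ) ≃L[ℝ] (ℝ × ℝ × ℝ)) : (ℝ × ℝ × ℝ) →L[ℝ] (ℝ × ℝ × ℝ)) p :=
    hasFDerivAt_Psi p
  have hst := hf.hasStrictFDerivAt' hf' (by simp)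
  obtain ⟨g, hg⟩ : ∃ g, g = hf.localInverse hf' (by simp) := ⟨_, rfl⟩
  have g1 : ContDiffAt ℝ ∞ g (Psi p) := by
    rw [hg]
    exact hf.to_localInverse hf' (by simp)
  have g2 : ∀ᶠ q in 𝓝 (Psi p), Psi (g q) = q := by
    rw [hg]
    exact hst.eventually_right_inverse
  have g3 : g (Psi p) = p := by
    rw [hg]
    exact hf.localInverse_apply_image hf' (by simp)
  rw [hΨp] at g1 g2 g3
  have g4 : ContDiffAt ℝ ∞ (fun q => (g q).2.2) q₀ := by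
    exact (contDiff_snd.contDiffAt.comp _ contDiff_snd.contDiffAt).comp q₀ g1
  have g5 : ∀ᶠ q in 𝓝 q₀, 9 / 10 < (g q).2.2 ∧ (g q).2.2 < 11 / 10 := by
    have h1 : Tendsto (fun q => (g q).2.2) (𝓝 q₀) (𝓝 (Lam q₀)) := by
      have h2 := g4.continuousAt.tendsto
      have h3 : (g q₀).2.2 = Lam q₀ := by rw [g3, hp]
      simp only [h3] at h2
      exact h2
    exact (h1.eventually_const_lt s1).and (h1.eventually_lt_const s2)
  refine g4.congr_of_eventuallyEq ?_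
  filter_upwards [g2, g5, Bx_open.mem_nhds hq] with q h1 h2 h3
  obtain ⟨t1, t2, t3⟩ := Lam_spec h3
  refine root_uniq h3 t1 t2 h2.1 h2.2 t3 ?_
  have e1 : (Psi (g q)).1 = q.1 := congrArg Prod.fst h1
  have e2 : (Psi (g q)).2.1 = q.2.1 := congrArg (fun z => z.2.1) h1
  have e3 : (Psi (g q)).2.2 = q.2.2 := congrArg (fun z => z.2.2) h1
  change (g q).1 = q.1 at e1
  change (g q).2.1 = q.2.1 at e2
  change (g q).2.2 ^ 3 - (g q).1 * (g q).2.2 ^ 2 + (g q).2.1 * (g q).2.2 = q.2.2 at e3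
  unfold Q3
  rw [e1, e2] at e3
  linarith

/-! ### hermitian matrices -/

/-- the hermitian part -/
def Hm (Q : M3) : Matrix (Fin 3) (Fin 3) ℂ := fun i j => (Q i j + conj (Q j i)) / 2

def e1 (M : Matrix (Fin 3) (Fin 3) ℂ) : ℂ := M 0 0 + M 1 1 + M 2 2

def e2 (M : Matrix (Fin 3) (Fin 3) ℂ) : ℂ := M 0 0 * M 1 1 - M 0 1 * M 1 0 + (M 0 0 * M 2 2 - M 0 2 * M 2 0) +
  (M 1 1 * M 2 2 - M 1 2 * M 2 1)

def e3 (M : Matrix (Fin 3) (Fin 3) ℂ) : ℂ := M 0 0 * (M 1 1 * M 2 2 - M 1 2 * M 2 1) -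
  M 0 1 * (M 1 0 * M 2 2 - M 1 2 * M 2 0) + M 0 2 * (M 1 0 * M 2 1 - M 1 1 * M 2 0)

lemma CH (M : Matrix (Fin 3) (Fin 3) ℂ) : M * M * M = e1 M • (M * M) - e2 M • M + e3 M • 1 := by
  ext i j
  fin_cases i <;> fin_cases j <;>
    simp [Matrix.mul_apply, Fin.sum_univ_three, e1, e2, e3] <;> ring

lemma e1_sq (M : Matrix (Fin 3) (Fin 3) ℂ) : e1 (M * M) = e1 M ^ 2 - 2 * e2 M := by
  simp [Matrix.mul_apply, Fin.sum_univ_three, e1, e2]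
  ring

lemma e_real {M : Matrix (Fin 3) (Fin 3) ℂ} (h : ∀ i j, conj (M i j) = M j i) :
    ((e1 M).re : ℂ) = e1 M ∧ ((e2 M).re : ℂ) = e2 M ∧ ((e3 M).re : ℂ) = e3 M := by
  refine ⟨Complex.conj_eq_iff_re.1 ?_, Complex.conj_eq_iff_re.1 ?_, Complex.conj_eq_iff_re.1 ?_⟩
  · simp [e1, h]
  · simp only [e2, map_add, map_sub, map_mul, h]
    ring
  · simp only [e3, map_add, map_sub, map_mul, h]
    ring

lemma Hm_herm (Q : M3) (i j : Fin 3) : conj (Hm Q i j) = Hm Q j i := by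
  unfold Hm
  rw [map_div₀, map_add, Complex.conj_conj, Complex.conj_ofNat, add_comm]

def qv (Q : M3) : ℝ × ℝ × ℝ := ((e1 (Hm Q)).re, (e2 (Hm Q)).re, (e3 (Hm Q)).re)

def lm (Q : M3) : ℝ := Lam (qv Q)

def cc (Q : M3) : ℝ := 3 * lm Q ^ 2 - 2 * (qv Q).1 * lm Q + (qv Q).2.1

def Am (Q : M3) : Matrix (Fin 3) (Fin 3) ℂ := Hm Q * Hm Q + ((lm Q - (qv Q).1 : ℝ) : ℂ) • Hm Q +
  ((lm Q ^ 2 - (qv Q).1 * lm Q + (qv Q).2.1 : ℝ) : ℂ) • 1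

def UU : Set M3 := {Q | qv Q ∈ Bx}

def NN (Q : M3) : M3 := fun i j => (((cc Q)⁻¹ : ℝ) : ℂ) * Am Q i j

lemma Am_herm (Q : M3) (i j : Fin 3) : conj (Am Q i j) = Am Q j i := by
  have h := Hm_herm Q
  unfold Am
  simp only [Matrix.add_apply, Matrix.smul_apply, smul_eq_mul, map_add, map_mul, Complex.conj_ofReal, h,
    Matrix.mul_apply, map_sum]
  congr 1
  · congr 1
    refine Finset.sum_congr rfl fun k _ => ?_
    rw [mul_comm]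
  · rw [Matrix.one_apply, Matrix.one_apply]
    by_cases hij : i = j
    · simp [hij]
    · rw [if_neg hij, if_neg (fun h => hij h.symm)]
      simp

lemma H_Am {Q : M3} (hQ : Q ∈ UU) : Hm Q * Am Q = (lm Q : ℂ) • Am Q := by
  obtain ⟨h1, h2, h3⟩ := e_real (Hm_herm Q)
  have hch := CH (Hm Q)
  rw [← h1, ← h2, ← h3] at hch
  have hroot : lm Q ^ 3 - (qv Q).1 * lm Q ^ 2 + (qv Q).2.1 * lm Q - (qv Q).2.2 = 0 := (Lam_spec hQ).2.2
  have hroot' : ((e3 (Hm Q)).re : ℂ) = (lm Q : ℂ) ^ 3 - ((e1 (Hm Q)).re : ℂ) * (lm Q : ℂ) ^ 2 +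
      ((e2 (Hm Q)).re : ℂ) * lm Q := by
    have : (e3 (Hm Q)).re = lm Q ^ 3 - (e1 (Hm Q)).re * lm Q ^ 2 + (e2 (Hm Q)).re * lm Q := by
      unfold qv at hroot
      simp only at hroot
      linarith
    rw [this]
    push_cast
    ring
  rw [hroot'] at hch
  unfold Am qv
  simp only
  rw [mul_add, mul_add, mul_smul_comm, mul_smul_comm, mul_one, ← mul_assoc, hch]
  push_cast
  module

lemma Am_sq {Q : M3} (hQ : Q ∈ UU) : Am Q * Am Q = (cc Q : ℂ) • Am Q := by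
  have h := H_Am hQ
  nth_rewrite 1 [Am]
  rw [add_mul, add_mul, smul_mul_assoc, smul_mul_assoc, one_mul, mul_assoc, h, mul_smul_comm, h]
  unfold cc
  push_cast
  module

lemma Am_tr (Q : M3) : Am Q 0 0 + Am Q 1 1 + Am Q 2 2 = (cc Q : ℂ) := by
  obtain ⟨h1, h2, h3⟩ := e_real (Hm_herm Q)
  have h4 := e1_sq (Hm Q)
  have h5 : Am Q 0 0 + Am Q 1 1 + Am Q 2 2 = e1 (Hm Q * Hm Q) + ((lm Q - (qv Q).1 : ℝ) : ℂ) * e1 (Hm Q) +
      3 * ((lm Q ^ 2 - (qv Q).1 * lm Q + (qv Q).2.1 : ℝ) : ℂ) := by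
    unfold Am e1
    simp only [Matrix.add_apply, Matrix.smul_apply, smul_eq_mul, Matrix.one_apply_eq]
    ring
  rw [h5, h4, ← h1, ← h2]
  unfold cc qv
  push_cast
  ring

lemma cc_pos {Q : M3} (hQ : Q ∈ UU) : 0 < cc Q := by
  obtain ⟨h1, h2, -⟩ := Lam_spec hQ
  exact deriv_pos hQ h1.le h2.le

lemma NN_maps {Q : M3} (hQ : Q ∈ UU) : NN Q ∈ CP2 := by
  have hc := cc_pos hQ
  have hc' : (cc Q : ℂ) ≠ 0 := by exact_mod_cast hc.ne'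
  refine ⟨fun i j => ?_, fun i j => ?_, ?_⟩
  · show (((cc Q)⁻¹ : ℝ) : ℂ) * Am Q j i = conj ((((cc Q)⁻¹ : ℝ) : ℂ) * Am Q i j)
    rw [map_mul, Complex.conj_ofReal, Am_herm]
  · have h1 := congrFun (congrFun (Am_sq hQ) i) j
    rw [Matrix.mul_apply, Matrix.smul_apply, smul_eq_mul] at h1
    show ∑ k, ((((cc Q)⁻¹ : ℝ) : ℂ) * Am Q i k) * ((((cc Q)⁻¹ : ℝ) : ℂ) * Am Q k j) =
      (((cc Q)⁻¹ : ℝ) : ℂ) * Am Q i j
    have h2 : ∀ k, ((((cc Q)⁻¹ : ℝ) : ℂ) * Am Q i k) * ((((cc Q)⁻¹ : ℝ) : ℂ) * Am Q k j) =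
        ((((cc Q)⁻¹ : ℝ) : ℂ) * (((cc Q)⁻¹ : ℝ) : ℂ)) * (Am Q i k * Am Q k j) := fun k => by ring
    rw [Finset.sum_congr rfl fun k _ => h2 k, ← Finset.mul_sum, h1]
    push_cast
    field_simp
  · show ∑ i, (((cc Q)⁻¹ : ℝ) : ℂ) * Am Q i i = 1
    rw [← Finset.mul_sum, Fin.sum_univ_three, Am_tr]
    push_cast
    field_simp

/-! ### `CP²` -/

lemma Hm_CP2 {P : M3} (hP : P ∈ CP2) : Hm P = P := by
  obtain ⟨h1, _, _⟩ := hP
  funext i j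
  unfold Hm
  rw [h1 i j]
  show (P i j + conj (conj (P i j))) / 2 = P i j
  rw [Complex.conj_conj]
  ring

lemma sq_CP2 {P : M3} (hP : P ∈ CP2) : (Hm P * Hm P) = Hm P := by
  rw [Hm_CP2 hP]
  obtain ⟨_, h2, _⟩ := hP
  funext i j
  exact h2 i j

lemma e1_CP2 {P : M3} (hP : P ∈ CP2) : e1 (Hm P) = 1 := by
  rw [Hm_CP2 hP]
  obtain ⟨_, _, h3⟩ := hP
  rw [Fin.sum_univ_three] at h3
  exact h3

lemma e2_CP2 {P : M3} (hP : P ∈ CP2) : e2 (Hm P) = 0 := by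
  have h := e1_sq (Hm P)
  rw [sq_CP2 hP, e1_CP2 hP] at h
  linear_combination (1 / 2) * h

lemma e3_CP2 {P : M3} (hP : P ∈ CP2) : e3 (Hm P) = 0 := by
  have h := CH (Hm P)
  rw [sq_CP2 hP, sq_CP2 hP, e1_CP2 hP, e2_CP2 hP, one_smul, zero_smul, sub_zero] at h
  have h1 : e3 (Hm P) • (1 : Matrix (Fin 3) (Fin 3) ℂ) = 0 := by
    have := sub_eq_zero.2 h.symm
    simpa using this
  have h2 := congrFun (congrFun h1 0) 0
  simpa using h2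

lemma qv_CP2 {P : M3} (hP : P ∈ CP2) : qv P = (1, 0, 0) := by
  unfold qv
  rw [e1_CP2 hP, e2_CP2 hP, e3_CP2 hP]
  simp

lemma one_Bx : ((1, 0, 0) : ℝ × ℝ × ℝ) ∈ Bx := by
  refine ⟨?_, ?_, ?_⟩ <;> simp

lemma Lam_one : Lam (1, 0, 0) = 1 := by
  obtain ⟨h1, h2, h3⟩ := Lam_spec one_Bx
  refine root_uniq one_Bx h1 h2 (by norm_num) (by norm_num) h3 ?_
  unfold Q3
  norm_num

lemma NN_fix {P : M3} (hP : P ∈ CP2) : NN P = P := by
  have hl : lm P = 1 := by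
    unfold lm
    rw [qv_CP2 hP, Lam_one]
  have hcc : cc P = 1 := by
    unfold cc
    rw [hl, qv_CP2 hP]
    norm_num
  have hA : Am P = Hm P := by
    unfold Am
    rw [sq_CP2 hP, hl, qv_CP2 hP]
    simp
  funext i j
  unfold NN
  rw [hcc, hA, Hm_CP2 hP]
  simp

lemma cont_entry (i j : Fin 3) : Continuous (fun P : M3 => P i j) :=
  (continuous_apply j).comp (continuous_apply i)

lemma CP2_closed : IsClosed CP2 := by
  have h1 : IsClosed {P : M3 | ∀ i j, P j i = star (P i j)} := by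
    simp only [Set.ofPred_forall]
    exact isClosed_iInter fun i => isClosed_iInter fun j =>
      isClosed_eq (cont_entry j i) (continuous_star.comp (cont_entry i j))
  have h2 : IsClosed {P : M3 | ∀ i j, ∑ k, P i k * P k j = P i j} := by
    simp only [Set.ofPred_forall]
    exact isClosed_iInter fun i => isClosed_iInter fun j =>
      isClosed_eq (continuous_finsetSum _ fun k _ => (cont_entry i k).mul (cont_entry k j)) (cont_entry i j)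
  have h3 : IsClosed {P : M3 | ∑ i, P i i = 1} :=
    isClosed_eq (continuous_finsetSum _ fun k _ => cont_entry k k) continuous_const
  exact h1.inter (h2.inter h3)

lemma CP2_diag {P : M3} (hP : P ∈ CP2) (i : Fin 3) : ((P i i).re : ℂ) = P i i ∧
    (P i i).re = ∑ k, ‖P i k‖ ^ 2 := by
  obtain ⟨h1, h2, h3⟩ := hP
  have e1 : conj (P i i) = P i i := (h1 i i).symm
  refine ⟨Complex.conj_eq_iff_re.1 e1, ?_⟩
  have e2 := h2 i i
  have e3 : ∀ k, P i k * P k i = ((‖P i k‖ ^ 2 : ℝ) : ℂ) := by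
    intro k
    rw [h1 i k]
    show P i k * conj (P i k) = _
    rw [Complex.mul_conj, Complex.normSq_eq_norm_sq]
  rw [Finset.sum_congr rfl fun k _ => e3 k, ← Complex.ofReal_sum] at e2
  rw [← e2, Complex.ofReal_re]

lemma CP2_bdd {P : M3} (hP : P ∈ CP2) (i j : Fin 3) : ‖P i j‖ ≤ 1 := by
  have hd := CP2_diag hP
  have hnn : ∀ i, 0 ≤ (P i i).re := fun i => by
    rw [(hd i).2]
    positivity
  have h3 : ∑ i, (P i i).re = 1 := by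
    have := congrArg Complex.re hP.2.2
    rwa [Complex.re_sum, Complex.one_re] at this
  have h4 : (P i i).re ≤ 1 := by
    rw [← h3]
    exact Finset.single_le_sum (fun k _ => hnn k) (Finset.mem_univ i)
  have h5 : ‖P i j‖ ^ 2 ≤ 1 := by
    refine le_trans ?_ h4
    rw [(hd i).2]
    exact Finset.single_le_sum (f := fun k => ‖P i k‖ ^ 2) (fun k _ => by positivity) (Finset.mem_univ j)
  have h6 : 0 ≤ ‖P i j‖ := norm_nonneg _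
  nlinarith

lemma CP2_compact : IsCompact CP2 := by
  apply Metric.isCompact_of_isClosed_isBounded CP2_closed
  rw [isBounded_iff_forall_norm_le]
  refine ⟨1, fun P hP => ?_⟩
  rw [pi_norm_le_iff_of_nonneg (by norm_num)]
  intro i
  rw [pi_norm_le_iff_of_nonneg (by norm_num)]
  intro j
  exact CP2_bdd hP i j

/-! ### smoothness -/

lemma smooth_entry (i j : Fin 3) : ContDiff ℝ ∞ (fun P : M3 => P i j) :=
  (contDiff_apply_apply ℝ ℂ i j)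

lemma smooth_Hm (i j : Fin 3) : ContDiff ℝ ∞ (fun P : M3 => Hm P i j) := by
  unfold Hm
  have h1 : ContDiff ℝ ∞ (fun P : M3 => conj (P j i)) :=
    Complex.conjCLE.contDiff.comp (smooth_entry j i)
  exact ((smooth_entry i j).add h1).div_const 2

lemma smooth_re {f : M3 → ℂ} (hf : ContDiff ℝ ∞ f) : ContDiff ℝ ∞ (fun P => (f P).re) :=
  Complex.reCLM.contDiff.comp hf

lemma smooth_qv : ContDiff ℝ ∞ qv := by
  unfold qv
  have h := smooth_Hm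
  refine (smooth_re ?_).prodMk ((smooth_re ?_).prodMk (smooth_re ?_))
  · unfold e1
    exact ((h 0 0).add (h 1 1)).add (h 2 2)
  · unfold e2
    exact ((((h 0 0).mul (h 1 1)).sub ((h 0 1).mul (h 1 0))).add (((h 0 0).mul (h 2 2)).sub ((h 0 2).mul (h 2 0)))).add
      (((h 1 1).mul (h 2 2)).sub ((h 1 2).mul (h 2 1)))
  · unfold e3
    exact (((h 0 0).mul (((h 1 1).mul (h 2 2)).sub ((h 1 2).mul (h 2 1)))).sub
      ((h 0 1).mul (((h 1 0).mul (h 2 2)).sub ((h 1 2).mul (h 2 0))))).add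
      ((h 0 2).mul (((h 1 0).mul (h 2 1)).sub ((h 1 1).mul (h 2 0))))

lemma UU_open : IsOpen UU := Bx_open.preimage smooth_qv.continuous

lemma smooth_lm : ContDiffOn ℝ ∞ lm UU := by
  intro Q hQ
  exact ((Lam_smooth hQ).comp Q smooth_qv.contDiffAt).contDiffWithinAt

lemma smooth_ofReal {f : M3 → ℝ} (hf : ContDiffOn ℝ ∞ f UU) : ContDiffOn ℝ ∞ (fun P => (f P : ℂ)) UU :=
  Complex.ofRealCLM.contDiff.comp_contDiffOn hf

lemma smooth_NN : ContDiffOn ℝ ∞ NN UU := by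
  have ht : ContDiffOn ℝ ∞ (fun Q => (qv Q).1) UU := smooth_qv.fst.contDiffOn
  have hs : ContDiffOn ℝ ∞ (fun Q => (qv Q).2.1) UU := smooth_qv.snd.fst.contDiffOn
  have hl := smooth_lm
  have hc : ContDiffOn ℝ ∞ cc UU := by
    unfold cc
    exact ((contDiffOn_const.mul (hl.pow 2)).sub ((contDiffOn_const.mul ht).mul hl)).add hs
  have hci : ContDiffOn ℝ ∞ (fun Q => (cc Q)⁻¹) UU := hc.inv fun Q hQ => (cc_pos hQ).ne'
  rw [contDiffOn_pi]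
  intro i
  rw [contDiffOn_pi]
  intro j
  unfold NN Am
  refine (smooth_ofReal hci).mul ?_
  simp only [Matrix.add_apply, Matrix.smul_apply, smul_eq_mul, Matrix.mul_apply]
  refine (ContDiffOn.add ?_ ?_).add ?_
  · exact ContDiffOn.sum fun k _ => ((smooth_Hm i k).mul (smooth_Hm k j)).contDiffOn
  · exact (smooth_ofReal (hl.sub ht)).mul (smooth_Hm i j).contDiffOn
  · exact (smooth_ofReal (((hl.pow 2).sub (ht.mul hl)).add hs)).mul contDiffOn_const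

theorem s_CPR : S_CPR := by
  refine ⟨UU, NN, CP2_compact, UU_open, fun P hP => ?_, smooth_NN, fun Q hQ => NN_maps hQ,
    fun P hP => NN_fix hP⟩
  show qv P ∈ Bx
  rw [qv_CP2 hP]
  exact one_Bx

end Pool.Agent.L7h50.PI
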